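import Pool.Agent.H.MP_7689c7_co.Bridge
import Pool.Agent.H.MP_7689c7_co.Class

namespace Pool.Agent.Results.MP_a02391_co.All

open Finset Pool.Agent.H.MP_7689c7_co Filter Topology

/-- `S` has the largest effective weight among numerical semigroups of its genus. -/
def IsMaximiser (S : AddSubmonoid ℕ) : Prop :=
  ∀ T : AddSubmonoid ℕ, (T : Set ℕ)ᶜ.Finite → genus T = genus S → ew T ≤ ew S

/-- The gaps of `S` are `1, …, a+b-1` and `2a+b, …, 2a+2b-1`, where `a ≥ 1`, `|a - 2b| ≤ 2`. -/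
def Family (S : AddSubmonoid ℕ) : Prop :=
  ∃ a b : ℕ, 1 ≤ a ∧ a ≤ 2 * b + 2 ∧ 2 * b ≤ a + 2 ∧
    ∀ x, x ∉ S ↔ (1 ≤ x ∧ x < a + b) ∨ (2 * a + b ≤ x ∧ x < 2 * a + 2 * b)

/-- The gap lists of the thirteen sporadic maximisers. -/
def sporadic : List (List ℕ) :=
  [[1, 3, 5], [1, 3, 5, 7], [1, 2, 4, 7], [1, 3, 5, 7, 9], [1, 2, 4, 5, 8], [1, 2, 3, 5, 9],
   [1, 2, 4, 5, 8, 11], [1, 2, 3, 6, 7, 11], [1, 2, 3, 5, 7, 11], [1, 2, 3, 5, 7, 9, 13],
   [1, 2, 3, 5, 7, 9, 11, 15], [1, 2, 3, 5, 7, 9, 11, 13, 17], [1, 2, 3, 4, 5, 9, 10, 11, 17]]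

/-- The largest effective weight in genus `g`. -/
noncomputable def M (g : ℕ) : ℕ :=
  sSup {w | ∃ S : AddSubmonoid ℕ, (S : Set ℕ)ᶜ.Finite ∧ genus S = g ∧ ew S = w}

def cps : ℕ → ℕ → List (List ℕ)
  | 0, _ => [[]]
  | l + 1, b => (List.range b).flatMap fun v => (cps l (b - (v + 1))).map fun t => (v + 1) :: t

lemma mem_cps : ∀ (l : List ℕ) (b : ℕ), (∀ x ∈ l, 1 ≤ x) → l.sum ≤ b → l ∈ cps l.length b
  | [], _, _, _ => by simp [cps]
  | x :: t, b, h1, h2 => by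
    have h3 := h1 x List.mem_cons_self
    rw [List.sum_cons] at h2
    simp only [List.length_cons, cps, List.mem_flatMap, List.mem_range, List.mem_map]
    exact ⟨x - 1, by omega, t, mem_cps t _ (fun y hy => h1 y (List.mem_cons_of_mem _ hy))
      (by omega), by rw [Nat.sub_add_cancel h3]⟩

def Chk (m : ℕ) (k : ℕ → ℕ) : Prop :=
  (∀ j < m, ∀ i < m, k j ≤ k i + k (sg m j i) + cy j i) →
    (∑ j ∈ range m, k j) ^ 2 / 8 ≤ (∑ i ∈ range m,
      if ∀ x < m, k i < k x + k (sg m i x) + cy i x then ∑ j ∈ range m, cc k i j else 0) →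
    (∀ j < m, k j ≤ 2) ∨ (List.range 100).filter (fun x => x ≠ 0 ∧ x / m < k (x % m)) ∈ sporadic

instance (m : ℕ) (k : ℕ → ℕ) : Decidable (Chk m k) := by unfold Chk; infer_instance

lemma chk_all : ∀ n < 10, ∀ l ∈ cps n 9, Chk (n + 1) (fun j => (1 :: l).getD j 0) := by
  decide +kernel

variable {m : ℕ} {k : ℕ → ℕ} {I : ℕ → Prop}

lemma small (h : Kz m k I) (hn : nn m k ≤ 10) (hE : ((nn m k ^ 2 / 8 : ℕ) : ℤ) ≤ EE m k I) :
    (∀ j < m, k j ≤ 2) ∨ ∃ L ∈ sporadic, ∀ x, x ∈ L ↔ x ≠ 0 ∧ x / m < k (x % m) := by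
  obtain ⟨n, rfl⟩ : ∃ n, m = n + 1 := ⟨m - 1, by have := h.mpos; omega⟩
  let l := (List.range n).map fun j => k (j + 1)
  have e : ∀ j < n + 1, (1 :: l).getD j 0 = k j := by
    intro j hj
    rcases j with _ | j
    · exact h.k0.symm
    · simp [l, List.getD_eq_getElem?_getD, show j < n by omega]
  have hs : l.sum + 1 = nn (n + 1) k := by
    rw [nn, sum_range_succ', h.k0, sum_range, ← List.sum_ofFn]
    congr 2
    apply List.ext_getElem <;> simp [l]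
  have hl : n + 1 ≤ nn (n + 1) k := by
    have := card_nsmul_le_sum (range (n + 1)) k 1 fun j hj => h.pos j (mem_range.mp hj)
    simpa [nn] using this
  have hk : ∀ j < n + 1, k j ≤ 10 := fun j hj =>
    (single_le_sum (f := k) (fun _ _ => Nat.zero_le _) (mem_range.mpr hj)).trans hn
  have h1 := mem_cps l 9 (by
    simp only [l, List.mem_map, List.mem_range]
    rintro _ ⟨j, hj, rfl⟩
    exact h.pos _ (by omega)) (by omega)
  rw [show l.length = n by simp [l]] at h1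
  rcases chk_all n (by omega) l h1 (fun j hj i hi => by
    simpa only [e j hj, e i hi, e _ (sg_lt hj hi)] using h.sub j hj i hi) (by
    rw [sum_congr rfl fun j hj => e j (mem_range.mp hj)]
    refine Int.ofNat_le.mp (hE.trans ?_)
    rw [EE]
    unfold FF
    rw [sum_comm]
    push_cast
    refine sum_le_sum fun i hi => ?_
    have hi := mem_range.mp hi
    by_cases hI : I i
    · rw [if_pos fun x hx => by simpa only [e x hx, e i hi, e _ (sg_lt hi hx)] using h.str i hi hI x hx]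
      refine le_of_eq (sum_congr rfl fun j hj => ?_)
      simp only [io_pos hI, cc, e i hi, e j (mem_range.mp hj), one_mul]
    · simp only [io_neg hI, zero_mul, sum_const_zero]
      positivity) with h2 | h2
  · exact Or.inl fun j hj => e j hj ▸ h2 j hj
  · refine Or.inr ⟨_, h2, fun x => ?_⟩
    have hx := Nat.mod_lt x h.mpos
    simp only [List.mem_filter, List.mem_range, decide_eq_true_eq, e _ hx]
    refine ⟨fun a => a.2, fun a => ⟨?_, a⟩⟩
    have := (Nat.div_lt_iff_lt_mul h.mpos).mp (a.2.trans_le (hk _ hx))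
    omega

lemma ew_ge {S : AddSubmonoid ℕ} (hS : (S : Set ℕ)ᶜ.Finite) (P : Finset (ℕ × ℕ))
    (h : ∀ p ∈ P, IsGen S p.1 ∧ p.2 ∉ S ∧ p.1 < p.2) : P.card ≤ ew S := by
  obtain ⟨B, hB⟩ := hS.bddAbove
  rw [← Set.ncard_coe_finset]
  exact Set.ncard_le_ncard h (((Set.finite_Iic B).prod hS).subset
    fun p hp => ⟨hp.2.2.le.trans (hB hp.2.1), hp.2.1⟩)

lemma fam_val {S : AddSubmonoid ℕ} {a b : ℕ} (ha : 1 ≤ a)
    (h : ∀ x, x ∉ S ↔ (1 ≤ x ∧ x < a + b) ∨ (2 * a + b ≤ x ∧ x < 2 * a + 2 * b)) :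
    (S : Set ℕ)ᶜ.Finite ∧ genus S + 1 = a + 2 * b ∧ a * b ≤ ew S := by
  have e : (S : Set ℕ)ᶜ = ↑(Ico 1 (a + b) ∪ Ico (2 * a + b) (2 * a + 2 * b)) := by
    ext x
    simpa using h x
  have hS : (S : Set ℕ)ᶜ.Finite := e ▸ Finset.finite_toSet _
  refine ⟨hS, ?_, ?_⟩
  · rw [genus, e, Set.ncard_coe_finset, card_union_of_disjoint (by
      rw [disjoint_left]; simp only [mem_Ico]; omega)]
    simp only [Nat.card_Ico]
    omega
  · have := ew_ge hS (Ico (a + b) (2 * a + b) ×ˢ Ico (2 * a + b) (2 * a + 2 * b)) (by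
      simp only [mem_product, mem_Ico]
      rintro ⟨x, y⟩ ⟨h1, h2⟩
      simp only at h1 h2 ⊢
      refine ⟨⟨not_not.mp ((h x).not.mpr (by omega)), by omega, ?_⟩, (h y).mpr (Or.inr h2), by omega⟩
      rintro ⟨u, hu, v, hv, h3, h4, h5⟩
      have := (h u).not.mp (not_not.mpr hu)
      have := (h v).not.mp (not_not.mpr hv)
      omega)
    rwa [card_product, Nat.card_Ico, Nat.card_Ico, show 2 * a + b - (a + b) = a by omega,
      show 2 * a + 2 * b - (2 * a + b) = b by omega] at this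

lemma fam_ew {S : AddSubmonoid ℕ} (h : Family S) : (genus S + 1) ^ 2 / 8 ≤ ew S := by
  obtain ⟨a, b, h1, h2, h3, h4⟩ := h
  obtain ⟨-, e1, e2⟩ := fam_val h1 h4
  refine le_trans (Nat.lt_succ_iff.mp ((Nat.div_lt_iff_lt_mul (by norm_num)).mpr ?_)) e2
  rw [e1]
  zify at h2 h3 ⊢
  nlinarith

def fam (a b : ℕ) : AddSubmonoid ℕ where
  carrier := {x | x = 0 ∨ (a + b ≤ x ∧ x < 2 * a + b) ∨ 2 * a + 2 * b ≤ x}
  zero_mem' := Or.inl rfl
  add_mem' := by
    intro x y hx hy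
    simp only [Set.mem_ofPred_eq] at *
    omega

lemma exists_fam (g : ℕ) : ∃ S : AddSubmonoid ℕ, (S : Set ℕ)ᶜ.Finite ∧ genus S = g ∧ Family S := by
  have h : ∀ x, x ∉ fam (g + 1 - 2 * ((g + 2) / 4)) ((g + 2) / 4) ↔
      (1 ≤ x ∧ x < g + 1 - 2 * ((g + 2) / 4) + (g + 2) / 4) ∨
      (2 * (g + 1 - 2 * ((g + 2) / 4)) + (g + 2) / 4 ≤ x ∧
        x < 2 * (g + 1 - 2 * ((g + 2) / 4)) + 2 * ((g + 2) / 4)) := by
    intro x
    change ¬ (x = 0 ∨ _) ↔ _
    omega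
  obtain ⟨h1, h2, -⟩ := fam_val (by omega) h
  exact ⟨_, h1, by omega, _, _, by omega, by omega, by omega, h⟩

lemma max_iff {S : AddSubmonoid ℕ} : IsMaximiser S ↔ (genus S + 1) ^ 2 / 8 ≤ ew S := by
  refine ⟨fun h => ?_, fun h T h1 h2 => (ew_le T h1).trans (h2 ▸ h)⟩
  obtain ⟨T, h1, h2, h3⟩ := exists_fam (genus S)
  exact (h2 ▸ fam_ew h3).trans (h T h1 h2)

lemma spor_val : ∀ L ∈ sporadic, (L.toFinset.card + 1) ^ 2 / 8 ≤
    ((range 18 ×ˢ L.toFinset).filter fun p => p.1 ∉ L ∧ p.1 ≠ 0 ∧ p.1 < p.2 ∧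
      ∀ x < p.1, x = 0 ∨ x ∈ L ∨ p.1 - x ∈ L).card := by decide +kernel

lemma spor_ew {S : AddSubmonoid ℕ} {L : List ℕ} (hL : L ∈ sporadic) (h : ∀ x, x ∉ S ↔ x ∈ L) :
    (genus S + 1) ^ 2 / 8 ≤ ew S := by
  have e : (S : Set ℕ)ᶜ = ↑L.toFinset := by
    ext x
    simpa using h x
  rw [genus, e, Set.ncard_coe_finset]
  refine (spor_val L hL).trans (ew_ge (e ▸ Finset.finite_toSet _) _ fun p hp => ?_)
  simp only [mem_filter, mem_product, List.mem_toFinset] at hp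
  obtain ⟨⟨-, h1⟩, h2, h3, h4, h5⟩ := hp
  refine ⟨⟨not_not.mp ((h _).not.mpr h2), h3, ?_⟩, (h _).mpr h1, h4⟩
  rintro ⟨u, hu, v, hv, h6, h7, h8⟩
  rcases h5 u (by omega) with e | e | e
  · exact h6 e
  · exact (h u).mpr e hu
  · exact (h v).mpr (by rwa [show p.1 - u = v by omega] at e) hv

lemma classify {S : AddSubmonoid ℕ} (hS : (S : Set ℕ)ᶜ.Finite) (hm : IsMaximiser S) :
    Family S ∨ (genus S < 10 ∧ ∃ L ∈ sporadic, ∀ x, x ∉ S ↔ x ∈ L) := by
  obtain ⟨m, k, I, h, h1, h2, h3⟩ := bridge S hS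
  have h4 := max_iff.mp hm
  rw [h3] at h4
  have h5 : ((nn m k ^ 2 / 8 : ℕ) : ℤ) ≤ EE m k I := (Int.ofNat_le.mpr h4).trans h2
  have h6 : (nn m k : ℤ) ^ 2 ≤ 8 * EE m k I + 4 := by
    have : nn m k ^ 2 % 8 ≤ 4 := by
      rw [Nat.pow_mod]
      have : nn m k % 8 < 8 := Nat.mod_lt _ (by norm_num)
      interval_cases nn m k % 8 <;> norm_num
    have : nn m k ^ 2 ≤ 8 * (nn m k ^ 2 / 8) + 4 := by omega
    zify at this
    push_cast at h5
    linarith
  have fam : (∀ j < m, k j ≤ 2) → Family S := by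
    intro h7
    obtain ⟨a, b, a1, a2, a3, a4, a5⟩ := shape h h7 h6
    refine ⟨a, b, a1, a2, a3, fun x => ?_⟩
    have hm := h.mpos
    rw [h1, a5 _ (Nat.mod_lt x hm)]
    rcases lt_or_ge x m with e | e
    · rw [Nat.div_eq_of_lt e]
      split_ifs <;> omega
    · rcases lt_or_ge x (2 * m) with e2 | e2
      · rw [Nat.div_eq_of_lt_le (k := 1) (by omega) (by omega), Nat.mod_eq_sub_mod e,
          Nat.mod_eq_of_lt (by omega)]
        split_ifs <;> omega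
      · have := (Nat.le_div_iff_mul_le hm).mpr e2
        split_ifs <;> omega
  rcases le_or_gt 11 (nn m k) with e | e
  · exact Or.inl (fam (depth h e h6))
  · rcases small h (by omega) h5 with e2 | ⟨L, e2, e3⟩
    · exact Or.inl (fam e2)
    · refine Or.inr ⟨by omega, L, e2, fun x => ?_⟩
      rw [h1, e3]
      omega

lemma M_eq (g : ℕ) : M g = (g + 1) ^ 2 / 8 := by
  obtain ⟨T, h1, h2, h3⟩ := exists_fam g
  refine IsGreatest.csSup_eq ⟨⟨T, h1, h2, le_antisymm (h2 ▸ ew_le T h1) (h2 ▸ fam_ew h3)⟩, ?_⟩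
  rintro _ ⟨S, h4, rfl, rfl⟩
  exact ew_le S h4

lemma gen_form {S : AddSubmonoid ℕ} (h : Family S) (hg : 10 ≤ genus S) :
    ∃ c d : ℕ, 2 ≤ c ∧ c < d ∧ d < 2 * c ∧ S = AddSubmonoid.closure (Set.Icc c d) := by
  obtain ⟨a, b, h1, h2, h3, h4⟩ := h
  obtain ⟨-, e1, -⟩ := fam_val h1 h4
  refine ⟨a + b, 2 * a + b - 1, by omega, by omega, by omega, le_antisymm ?_ ?_⟩
  · intro x
    induction x using Nat.strong_induction_on with
    | _ x ih =>
      intro hx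
      have h5 := (h4 x).not.mp (not_not.mpr hx)
      have A : ∀ y, a + b ≤ y → y < 2 * a + b →
          y ∈ AddSubmonoid.closure (Set.Icc (a + b) (2 * a + b - 1)) := fun y h1 h2 =>
        AddSubmonoid.subset_closure ⟨h1, by omega⟩
      rcases (show x = 0 ∨ (a + b ≤ x ∧ x < 2 * a + b) ∨ (2 * a + 2 * b ≤ x ∧ x < 3 * a + 2 * b) ∨
        (3 * a + 2 * b ≤ x ∧ x < 3 * a + 3 * b) ∨ 3 * a + 3 * b ≤ x by omega) with e | e | e | e | e
      · exact e ▸ zero_mem _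
      · exact A x e.1 e.2
      · rw [show x = (a + b) + (x - (a + b)) by omega]
        exact add_mem (A _ (by omega) (by omega)) (A _ (by omega) (by omega))
      · rw [show x = (2 * a + b - 1) + (x - (2 * a + b - 1)) by omega]
        exact add_mem (A _ (by omega) (by omega)) (A _ (by omega) (by omega))
      · rw [show x = (a + b) + (x - (a + b)) by omega]
        exact add_mem (A _ (by omega) (by omega))
          (ih _ (by omega) (not_not.mp ((h4 _).not.mpr (by omega))))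
  · rw [AddSubmonoid.closure_le]
    rintro x ⟨h5, h6⟩
    exact not_not.mp ((h4 x).not.mpr (by omega))

lemma lim : Tendsto (fun g : ℕ => (M g : ℝ) / (g : ℝ) ^ 2) atTop (𝓝 (1 / 8)) := by
  have h1 : Tendsto (fun g : ℕ => (1 / 8 : ℝ) + (g : ℝ)⁻¹) atTop (𝓝 (1 / 8)) := by
    simpa only [add_zero] using (tendsto_inv_atTop_nhds_zero_nat (𝕜 := ℝ)).const_add (1 / 8)
  refine tendsto_of_tendsto_of_tendsto_of_le_of_le' tendsto_const_nhds h1 ?_ ?_ <;>
    filter_upwards [eventually_ge_atTop 3] with g hg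
  · have h2 : g ^ 2 ≤ M g * 8 := by
      have : (g + 1) ^ 2 = g ^ 2 + 2 * g + 1 := by ring
      rw [M_eq]
      omega
    have h3 : (0 : ℝ) < g := by exact_mod_cast (by omega : 0 < g)
    rw [div_le_div_iff₀ (by norm_num) (by positivity), one_mul]
    exact_mod_cast h2
  · have h2 : M g * 8 ≤ g ^ 2 + 8 * g := by
      have : (g + 1) ^ 2 = g ^ 2 + 2 * g + 1 := by ring
      rw [M_eq]
      omega
    have h3 : (0 : ℝ) < g := by exact_mod_cast (by omega : 0 < g)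
    have h4 : (M g : ℝ) * 8 ≤ g ^ 2 + 8 * g := by exact_mod_cast h2
    rw [div_le_iff₀ (by positivity)]
    field_simp
    linarith

/-- All maximisers of the effective weight, in every genus. -/
theorem result :
    (∀ S : AddSubmonoid ℕ, (S : Set ℕ)ᶜ.Finite →
      (IsMaximiser S ↔ Family S ∨ ∃ L ∈ sporadic, ∀ x, x ∉ S ↔ x ∈ L)) ∧
    (∀ g, M g = (g + 1) ^ 2 / 8) ∧
    Tendsto (fun g : ℕ => (M g : ℝ) / (g : ℝ) ^ 2) atTop (𝓝 (1 / 8)) ∧
    ∀ S : AddSubmonoid ℕ, (S : Set ℕ)ᶜ.Finite → 10 ≤ genus S → IsMaximiser S →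
      ∃ c d : ℕ, 2 ≤ c ∧ c < d ∧ d < 2 * c ∧ S = AddSubmonoid.closure (Set.Icc c d) := by
  refine ⟨fun S hS => ⟨fun h => (classify hS h).imp_right And.right, ?_⟩, M_eq, lim,
    fun S hS hg h => gen_form ((classify hS h).resolve_right fun e => by omega) hg⟩
  rintro (h | ⟨L, h1, h2⟩)
  · exact max_iff.mpr (fam_ew h)
  · exact max_iff.mpr (spor_ew h1 h2)

end Pool.Agent.Results.MP_a02391_co.All
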